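import Pool.Agent.H5.NM.Low

/-! # A critical partially hyperbolic diffeomorphism with smooth splitting which is not a local
maximum of the unstable exponent

The diffeomorphism is the automorphism `aut k` of the nilmanifold `M = Γ \ N`,
`N = Heis(ℝ) × Heis(ℝ)`, with `k` large. The definitions are in `Pool/Agent/H5/NM/Defs.lean`.
-/

set_option autoImplicit false

noncomputable section

open MeasureTheory Set Filter Topology

namespace Pool.Agent.H5.NM

/-- derivatives of all orders of a smooth family are jointly smooth -/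
theorem contDiff_iter {F : ℝ → R6 → R6} (hF : ContDiff ℝ (⊤ : ℕ∞) (fun x : ℝ × R6 => F x.1 x.2))
    (j : ℕ) : ContDiff ℝ (⊤ : ℕ∞) (fun x : ℝ × R6 => iteratedFDeriv ℝ j (F x.1) x.2) := by
  induction j with
  | zero =>
    have h : (fun x : ℝ × R6 => iteratedFDeriv ℝ 0 (F x.1) x.2) =
        (continuousMultilinearCurryFin0 ℝ R6 R6).symm ∘ fun x : ℝ × R6 => F x.1 x.2 := by
      funext x
      rw [iteratedFDeriv_zero_eq_comp]
      rfl
    rw [h]
    exact (continuousMultilinearCurryFin0 ℝ R6 R6).symm.contDiff.comp hF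
  | succ j ih =>
    have h1 : ContDiff ℝ (⊤ : ℕ∞) (Function.uncurry fun (x : ℝ × R6) (y : R6) =>
        iteratedFDeriv ℝ j (F x.1) y) :=
      ih.comp ((contDiff_fst.comp contDiff_fst).prodMk contDiff_snd)
    have h2 : ContDiff ℝ (⊤ : ℕ∞) (fun x : ℝ × R6 => fderiv ℝ (iteratedFDeriv ℝ j (F x.1)) x.2) :=
      h1.fderiv (n := ((⊤ : ℕ∞) : WithTop ℕ∞)) contDiff_snd (by simp)
    have h : (fun x : ℝ × R6 => iteratedFDeriv ℝ (j + 1) (F x.1) x.2) =
        (continuousMultilinearCurryLeftEquiv ℝ (fun _ : Fin (j + 1) => R6) R6).symm ∘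
          fun x : ℝ × R6 => fderiv ℝ (iteratedFDeriv ℝ j (F x.1)) x.2 := by
      funext x
      rw [iteratedFDeriv_succ_eq_comp_left]
      rfl
    rw [h]
    exact (continuousMultilinearCurryLeftEquiv ℝ (fun _ : Fin (j + 1) => R6) R6).symm.contDiff.comp h2

/-- a smooth family converges in the `C^r` topology -/
theorem tendsto_Cr {F : ℝ → R6 → R6} (hF : ContDiff ℝ (⊤ : ℕ∞) (fun x : ℝ × R6 => F x.1 x.2))
    (j : ℕ) {ε : ℝ} (hε : 0 < ε) : ∀ᶠ t in 𝓝 (0 : ℝ), ∀ p ∈ dom,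
      ‖iteratedFDeriv ℝ j (F t) p - iteratedFDeriv ℝ j (F 0) p‖ < ε := by
  have hc : Continuous fun x : ℝ × R6 =>
      ‖iteratedFDeriv ℝ j (F x.1) x.2 - iteratedFDeriv ℝ j (F 0) x.2‖ := by
    have h1 := (contDiff_iter hF j).continuous
    have h2 : Continuous fun x : ℝ × R6 => iteratedFDeriv ℝ j (F 0) x.2 :=
      h1.comp (Continuous.prodMk (continuous_const (y := (0 : ℝ))) continuous_snd)
    exact (h1.sub h2).norm
  have h3 : ∀ᶠ t in 𝓝 (0 : ℝ), ∀ p ∈ bigBox,
      ‖iteratedFDeriv ℝ j (F t) p - iteratedFDeriv ℝ j (F 0) p‖ < ε := by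
    refine isCompact_bigBox.eventually_forall_of_forall_eventually fun p _ => ?_
    have h4 : IsOpen {x : ℝ × R6 |
        ‖iteratedFDeriv ℝ j (F x.1) x.2 - iteratedFDeriv ℝ j (F 0) x.2‖ < ε} :=
      isOpen_lt hc continuous_const
    exact h4.mem_nhds (by simpa using hε)
  filter_upwards [h3] with t ht p hp
  exact ht p (dom_subset hp)

end Pool.Agent.H5.NM

namespace Pool.Agent.Results.MP_48de40_an.NotLocalMax

open Pool.Agent.H5.NM

/-- For all large `k` the automorphism `aut k` of the nilmanifold is partially hyperbolic with a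
left invariant splitting and critical for the unstable bundle and volume, but it is not a local
maximum of `lamU` among the volume preserving diffeomorphisms, in any `C^r` topology. -/
theorem result : DomBounded ∧ ∃ k₀ : ℕ, ∀ k ≥ k₀,
    IsPartiallyHyperbolic k ∧ HasContinuation k ∧ IsCritical k ∧
    ∃ G, IsFamily k G ∧ TendsToAut k G ∧
      ∃ c > 0, ∀ᶠ t in 𝓝[≠] (0 : ℝ), lamU (aut k) + c * t ^ 2 < lamU (G t) := by
  refine ⟨⟨Metric.isBounded_closedBall.subset dom_subset, fun p => ?_⟩, ?_⟩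
  · obtain ⟨γ, hγ, hγ'⟩ := exists_unique_dom p
    refine ⟨emb γ, ⟨emb_mem γ, hγ⟩, ?_⟩
    rintro κ ⟨hκ, hκ'⟩
    rw [← range_emb] at hκ
    obtain ⟨γ', rfl⟩ := hκ
    rw [hγ' γ' hκ']
  obtain ⟨k₀, hk₀, hlow⟩ := H5.NM.lower
  refine ⟨k₀, fun k hk => ?_⟩
  have hk1 : 1 ≤ k := hk₀.trans hk
  have hU := Uk_ge hk1
  have hV := Vk_nonneg k
  have hV1 := Vk_le k
  have hU0 : 0 < Uk k := by linarith
  refine ⟨⟨isDiffeo_aut k, fun p v i => ?_, ?_, ⟨?_, ?_⟩, ?_⟩, fun δ hδ => ?_,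
    fun F hF => (critical hk1 hF.smooth hF.diffeo hF.start).1,
    gk k, ⟨contDiff_gk k, isDiffeo_gk k, gk_zero k⟩, fun r ε hε => ?_, ?_⟩
  · rw [comp_eq, comp_eq, fderiv_aut, aut_eq]
    have h1 := A_E (Uk k) (Vk k) p (Ei p v)
    rw [E_Ei] at h1
    rw [h1, Ei_E, A_apply, mult_eq]
  · rw [mult_eq]
    show Uk k ^ 2 < Uk k ^ 3
    nlinarith [sq_nonneg (Uk k)]
  · rw [mult_eq]
    show Uk k < Uk k ^ 2
    nlinarith
  · rw [mult_eq]
    show 1 < Uk k
    linarith
  · have hVpos : 0 < Vk k := by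
      have := UV k
      rcases hV.lt_or_eq with h | h
      · exact h
      · rw [← h, mul_zero] at this
        norm_num at this
    have hVlt : Vk k < 1 := by
      have := UV k
      nlinarith
    rintro i (rfl | rfl | rfl)
    · rw [mult_eq]
      show 0 < Vk k ^ 2 ∧ Vk k ^ 2 < 1
      exact ⟨by positivity, pow_lt_one₀ hV hVlt (by norm_num)⟩
    · rw [mult_eq]
      show 0 < Vk k ∧ Vk k < 1
      exact ⟨hVpos, hVlt⟩
    · rw [mult_eq]
      show 0 < Vk k ^ 3 ∧ Vk k ^ 3 < 1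
      exact ⟨by positivity, pow_lt_one₀ hV hVlt (by norm_num)⟩
  · have hδ' : 0 < min 1 (δ / 2) := by positivity
    obtain ⟨ε, hε, h⟩ := close_J k hδ'
    refine ⟨ε, hε, fun g hg hclose => ?_⟩
    have hJ := h g hg hclose
    have hJ1 : ∀ p, ‖J g p - A (Uk k) (Vk k)‖ ≤ 1 := fun p => (hJ p).le.trans (min_le_left _ _)
    have hJ2 : ∀ p, ‖J g p - A (Uk k) (Vk k)‖ ≤ δ / 2 := fun p => (hJ p).le.trans (min_le_right _ _)
    obtain ⟨w, hwc, hwi, hw, h26, huns, huniq, -⟩ := lamU_formula hk1 hg hJ1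
    obtain ⟨S, -, -, hTS⟩ := hg.inverse
    have hcl := field_close hU hV hV1 hTS hJ1 hw (by positivity) hJ2
    refine ⟨_, huns, huniq, fun p i => ?_⟩
    have h1 := (norm_le_pi_norm (w p - e2) i).trans (hcl p)
    rw [Pi.sub_apply, Real.norm_eq_abs] at h1
    have h2 : e2 i = if i = 2 then 1 else 0 := by
      by_cases hi : i = 2
      · rw [if_pos hi, hi, e2_two]
      · rw [if_neg hi, e2_of_ne hi]
    rw [comp_eq, Ei_E, ← h2]
    linarith
  · have h1 : ∀ j ∈ Finset.range (r + 1), ∀ᶠ t in 𝓝 (0 : ℝ), ∀ p ∈ dom,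
        ‖iteratedFDeriv ℝ j (gk k t) p - iteratedFDeriv ℝ j (aut k) p‖ < ε := by
      intro j _
      have := tendsto_Cr (contDiff_gk k) j hε
      rwa [gk_zero] at this
    have h2 := (Finset.eventually_all (Finset.range (r + 1))).2 h1
    filter_upwards [h2] with t ht p hp j hj
    exact ht j (Finset.mem_range.2 (by omega)) p hp
  · obtain ⟨c, hc, h⟩ := hlow k hk
    have h0 : lamU (aut k) = Real.log (Uk k ^ 3) :=
      (critical hk1 (F := fun _ => aut k) ((contDiff_aut k).comp contDiff_snd)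
        (fun _ => isDiffeo_aut k) rfl).2
    refine ⟨c, hc, ?_⟩
    rw [h0]
    exact h

end Pool.Agent.Results.MP_48de40_an.NotLocalMax
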